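import Pool.Agent.H.MP_6a83a4_lc.Nodes

namespace Pool.Agent.H.MP_6a83a4_lc

open Classical

def pre (z : ℕ → ℕ × ℕ) (n : ℕ) : Mv := (List.range n).map z

theorem length_pre (z : ℕ → ℕ × ℕ) (n : ℕ) : (pre z n).length = n := by simp [pre]

theorem ex_pre (z : ℕ → ℕ × ℕ) {n i : ℕ} (h : i < n) : ex (pre z n) i = z i := by
  simp [ex, pre, List.getD, h]

theorem eq_pre {u : Mv} {z : ℕ → ℕ × ℕ} (h : ∀ i < u.length, ex u i = z i) :
    u = pre z u.length := by
  apply List.ext_getElem (by simp [pre])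
  intro i h1 h2
  have := h i h1
  simp only [ex, List.getD, List.getElem?_eq_getElem h1, Option.getD_some] at this
  simp [pre, this]

def node (z : ℕ → ℕ × ℕ) (k : ℕ → ℕ) : ℕ → Node
  | 0 => []
  | i + 1 => pre z (k (i + 1)) :: node z k i

theorem length_node (z : ℕ → ℕ × ℕ) (k : ℕ → ℕ) (i : ℕ) : (node z k i).length = i := by
  induction i with
  | zero => rfl
  | succ i ih => simp [node, ih]

theorem hd_node (z : ℕ → ℕ × ℕ) {k : ℕ → ℕ} (h0 : k 0 = 0) (i : ℕ) :
    (node z k i).headD [] = pre z (k i) := by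
  cases i with
  | zero => simp [node, h0, pre]
  | succ i => simp [node]

theorem hl_node (z : ℕ → ℕ × ℕ) {k : ℕ → ℕ} (h0 : k 0 = 0) (i : ℕ) : hl (node z k i) = k i := by
  unfold hl
  rw [hd_node z h0, length_pre]

theorem node_suffix (z : ℕ → ℕ × ℕ) (k : ℕ → ℕ) {i i' : ℕ} (h : i ≤ i') :
    node z k i <:+ node z k i' := by
  induction h with
  | refl => exact List.suffix_refl _
  | step _ ih => exact ih.trans (List.suffix_cons _ _)

theorem eq_node_of_suffix {z : ℕ → ℕ × ℕ} {k : ℕ → ℕ} {i : ℕ} {s : Node}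
    (h : s <:+ node z k i) : ∃ i' ≤ i, s = node z k i' := by
  induction i with
  | zero => exact ⟨0, le_rfl, List.suffix_nil.mp h⟩
  | succ i ih =>
    rcases List.suffix_cons_iff.mp h with h | h
    · exact ⟨i + 1, le_rfl, h⟩
    · obtain ⟨i', h1, h2⟩ := ih h
      exact ⟨i', by omega, h2⟩

def GLab (z : ℕ → ℕ × ℕ) : Prop :=
  ∀ j, ((z j).2 = 0 ∨ j < (z j).2) ∧ ∀ j', j < j' →
    ((((z j).2 = 0 ∨ j' < (z j).2) → ¬ Le V (Q z j) (Q z j')) ∧
      (j' = (z j).2 → Le V (Q z j) (Q z j')))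

structure G (z : ℕ → ℕ × ℕ) (k : ℕ → ℕ) : Prop where
  k0 : k 0 = 0
  mono : StrictMono k
  lab : GLab z
  K1 : ∀ i j, k i ≤ j → j + 1 < k (i + 1) → ¬ Usable (st (node z k i)) z j
  K2 : ∀ i, ¬ Usable (st (node z k i)) z (k (i + 1) - 1) →
    k (i + 1) = k i + 1 ∧ ∀ j, k i ≤ j → ¬ Usable (st (node z k i)) z j

theorem Q_pre (z : ℕ → ℕ × ℕ) {n j : ℕ} (h : j < n) : Q (ex (pre z n)) j = Q z j :=
  Q_congr (fun i hi => by rw [ex_pre z (by omega)])

theorem Usable_pre (p : Finset (ℕ × ℕ)) (z : ℕ → ℕ × ℕ) {n j : ℕ} (h : j < n) :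
    Usable p (ex (pre z n)) j ↔ Usable p z j :=
  Usable_congr (fun i hi => by rw [ex_pre z (by omega)])

theorem Lab_pre (z : ℕ → ℕ × ℕ) (n : ℕ) : Lab V (ex (pre z n)) n ↔ Lab V z n := by
  unfold Lab
  refine forall_congr' fun j => forall_congr' fun hj => ?_
  rw [ex_pre z hj, Q_pre z hj]
  refine and_congr Iff.rfl ?_
  refine forall_congr' fun j' => forall_congr' fun _ => forall_congr' fun hj' => ?_
  rw [Q_pre z hj']

theorem G.valid {z : ℕ → ℕ × ℕ} {k : ℕ → ℕ} (h : G z k) (i : ℕ) : V (node z k i) := by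
  induction i with
  | zero => rw [V_iff]; trivial
  | succ i ih =>
    rw [V_iff]
    have hm : k i < k (i + 1) := h.mono (by omega)
    simp only [node, Phi]
    rw [hl_node z h.k0, hd_node z h.k0, length_pre]
    refine ⟨ih, hm, fun j hj => by rw [ex_pre z hj, ex_pre z (by omega)], ?_, ?_, ?_⟩
    · rw [Lab_pre]
      intro j _
      exact ⟨(h.lab j).1, fun j' h1 _ => (h.lab j).2 j' h1⟩
    · intro j h1 h2
      rw [Usable_pre _ z (by omega)]
      exact h.K1 i j h1 h2
    · intro u' t' hs hu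
      obtain ⟨i', h1, h2⟩ := eq_node_of_suffix (i := i + 1) hs
      cases i' with
      | zero => simp [node] at h2
      | succ i' =>
        simp only [node, List.cons.injEq] at h2
        obtain ⟨rfl, rfl⟩ := h2
        have hm' : k i' < k (i' + 1) := h.mono (by omega)
        rw [length_pre, Usable_pre _ z (by omega)] at hu
        rw [hl_node z h.k0, length_pre]
        refine ⟨(h.K2 i' hu).1, fun j a1 a2 => ?_⟩
        rw [Usable_pre _ z a2]
        exact (h.K2 i' hu).2 j a1

theorem exists_G (N : ℕ → Node) (h0 : N 0 = []) (hs : ∀ i, ∃ u, N (i + 1) = u :: N i)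
    (hV : ∀ i, V (N i)) : ∃ z k, G z k ∧ ∀ i, N i = node z k i := by
  choose m hm using hs
  have hP : ∀ i, Phi V (m i :: N i) := fun i => by rw [← hm, ← V_iff]; exact hV _
  set k : ℕ → ℕ := fun i => hl (N i) with hk
  have hk1 : ∀ i, k (i + 1) = (m i).length := fun i => by simp [hk, hl, hm]
  have hk0 : k 0 = 0 := by simp [hk, hl, h0]
  have hmono : StrictMono k := strictMono_nat_of_lt_succ fun i => by
    rw [hk1]; exact (hP i).2.1
  have hco : ∀ i i', i ≤ i' → ∀ j < k i, ex ((N i').headD []) j = ex ((N i).headD []) j := by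
    intro i i' hi
    induction hi with
    | refl => intro j _; rfl
    | @step i' hi ih =>
      intro j hj
      rw [← ih j hj, hm, List.headD_cons]
      exact (hP i').2.2.1 j (lt_of_lt_of_le hj (hmono.monotone hi))
  set z : ℕ → ℕ × ℕ := fun j => ex ((N (j + 1)).headD []) j with hz
  have hz1 : ∀ i, ∀ j < k i, ex ((N i).headD []) j = z j := by
    intro i j hj
    have a1 : j < k (j + 1) := lt_of_lt_of_le (Nat.lt_succ_self j) (hmono.le_apply)
    rw [← hco i (max i (j + 1)) (le_max_left _ _) j hj,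
      hco (j + 1) (max i (j + 1)) (le_max_right _ _) j a1]
  have hm1 : ∀ i, m i = pre z (k (i + 1)) := by
    intro i
    rw [hk1]
    apply eq_pre
    intro j hj
    have := hz1 (i + 1) j (by rw [hk1]; exact hj)
    rwa [hm, List.headD_cons] at this
  have hN : ∀ i, N i = node z k i := by
    intro i
    induction i with
    | zero => exact h0
    | succ i ih => rw [hm, ih, hm1]; rfl
  refine ⟨z, k, ⟨hk0, hmono, ?_, ?_, ?_⟩, hN⟩
  · intro j
    have hL : ∀ i, Lab V z (k (i + 1)) := by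
      intro i
      have := (hP i).2.2.2.1
      rwa [← hk1, hm1, Lab_pre] at this
    have a1 : ∀ j, j < k (j + 1) := fun j =>
      lt_of_lt_of_le (Nat.lt_succ_self j) (hmono.le_apply)
    refine ⟨(hL j j (a1 j)).1, fun j' hj' => ?_⟩
    exact (hL j' j (by have := a1 j'; omega)).2 j' hj' (a1 j')
  · intro i j h1 h2
    have := (hP i).2.2.2.2.1 j h1 (by rw [← hk1]; exact h2)
    rwa [hm1, Usable_pre _ z (by omega), hN] at this
  · intro i hu
    have hm' : k i < k (i + 1) := hmono (by omega)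
    have key : ∀ i', i ≤ i' → (m i).length = hl (N i) + 1 ∧
        ∀ j, hl (N i) ≤ j → j < (m i').length → ¬ Usable (st (N i)) (ex (m i')) j := by
      intro i' hi'
      apply (hP i').2.2.2.2.2
      · rw [← hm, ← hm, hN, hN]
        exact node_suffix z k (by omega)
      · rw [← hk1, hm1, Usable_pre _ z (by omega), hN]
        exact hu
    refine ⟨by rw [hk1]; exact (key i le_rfl).1, fun j hj => ?_⟩
    have a1 : j < k (max i j + 1) := by
      have : max i j + 1 ≤ k (max i j + 1) := hmono.le_apply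
      omega
    have := (key (max i j) (le_max_left _ _)).2 j hj (by rw [← hk1]; exact a1)
    rwa [hm1, Usable_pre _ z a1, hN] at this

theorem GLab.unique {z z' : ℕ → ℕ × ℕ} (h : GLab z) (h' : GLab z')
    (e : ∀ j, (z j).1 = (z' j).1) : z = z' := by
  have hQ : ∀ j, Q z j = Q z' j := fun j => Q_congr (fun i _ => e i)
  have key : ∀ {z z' : ℕ → ℕ × ℕ}, GLab z → GLab z' → (∀ j, Q z j = Q z' j) → ∀ j,
      (z j).2 ≠ 0 → ¬ ((z' j).2 = 0 ∨ (z j).2 < (z' j).2) := by
    intro z z' h h' hQ j hj hc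
    have a1 : j < (z j).2 := (h j).1.resolve_left hj
    have a2 := ((h j).2 _ a1).2 rfl
    have a3 := ((h' j).2 _ a1).1 hc
    rw [hQ, hQ] at a2
    exact a3 a2
  funext j
  apply Prod.ext (e j)
  have a1 := key h h' hQ j
  have a2 := key h' h (fun j => (hQ j).symm) j
  omega

theorem G.unique {z : ℕ → ℕ × ℕ} {k k' : ℕ → ℕ} (h : G z k) (h' : G z k') (i : ℕ) :
    k i = k' i ∧ node z k i = node z k' i := by
  induction i with
  | zero => exact ⟨h.k0.trans h'.k0.symm, rfl⟩
  | succ i ih =>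
    have key : ∀ {k k' : ℕ → ℕ}, G z k → G z k' → k i = k' i → node z k i = node z k' i →
        ¬ k (i + 1) < k' (i + 1) := by
      intro k k' h h' e1 e2 hc
      have hm : k i < k (i + 1) := h.mono (by omega)
      have a1 : ¬ Usable (st (node z k i)) z (k (i + 1) - 1) := by
        rw [e2]
        exact h'.K1 i _ (by omega) (by omega)
      have a2 := h.K2 i a1
      have a3 : ¬ Usable (st (node z k' i)) z (k' (i + 1) - 1) := by
        rw [← e2]
        exact a2.2 _ (by omega)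
      have a4 := (h'.K2 i a3).1
      omega
    have a1 := key h h' ih.1 ih.2
    have a2 := key h' h ih.1.symm ih.2.symm
    have e : k (i + 1) = k' (i + 1) := by omega
    exact ⟨e, by simp only [node, e, ih.2]⟩

theorem G.mem_st {z : ℕ → ℕ × ℕ} {k : ℕ → ℕ} (h : G z k) {i : ℕ} {x : ℕ × ℕ}
    (hx : x ∈ st (node z k i)) :
    (∃ i', Catch (node z k i') x) ∨ ∃ j, (z j).2 = 0 ∧ x = Q z j := by
  induction i with
  | zero => simp [node, st] at hx
  | succ i ih =>
    have hm : k i < k (i + 1) := h.mono (by omega)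
    rcases mem_st_cons.mp hx with hx | hx | hx
    · exact Or.inl ⟨i + 1, hx⟩
    · rw [length_pre, Usable_pre _ z (by omega), Q_pre z (by omega)] at hx
      exact Or.inr ⟨_, hx.1.1, hx.2⟩
    · exact ih hx

theorem G.use_mem {z : ℕ → ℕ × ℕ} {k : ℕ → ℕ} (h : G z k) {i : ℕ}
    (hu : Usable (st (node z k i)) z (k (i + 1) - 1)) :
    Q z (k (i + 1) - 1) ∈ st (node z k (i + 1)) := by
  have hm : k i < k (i + 1) := h.mono (by omega)
  apply mem_st_cons.mpr
  right; left
  rw [length_pre, Usable_pre _ z (by omega), Q_pre z (by omega)]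
  exact ⟨hu, rfl⟩

theorem catch_finite (t : Node) : {q | Catch t q}.Finite :=
  (st t).finite_toSet.subset (fun _ hq => Catch.mem hq)

theorem G.caught_finite {z z' : ℕ → ℕ × ℕ} {k k' : ℕ → ℕ} (h : G z k) (h' : G z' k') :
    {x | (∃ j, (z j).2 = 0 ∧ x = Q z j) ∧ ∃ i, Catch (node z' k' i) x}.Finite := by
  set S : Set ℕ := {j | (z j).2 = 0 ∧ ∃ i, Catch (node z' k' i) (Q z j)} with hS
  have hfin : S.Finite := by
    by_contra hinf
    have hne : S.Nonempty := Set.Infinite.nonempty hinf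
    set j0 := sInf S with hj0
    have hj0S : j0 ∈ S := Nat.sInf_mem hne
    obtain ⟨a0, i0, hi0⟩ := hj0S
    apply hinf
    have hfin2 : {j | Q z j ∈ st (node z' k' i0)}.Finite := by
      apply Set.Finite.preimage (f := Q z) (s := (st (node z' k' i0) : Set (ℕ × ℕ)))
      · intro a _ b _ hab
        exact (Q_fst_eq (congrArg Prod.fst hab)).1
      · exact Finset.finite_toSet _
    apply hfin2.subset
    intro j hj
    obtain ⟨_, i, hi⟩ := id hj
    rcases (Nat.sInf_le hj : j0 ≤ j).eq_or_lt with e | e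
    · rw [← e]; exact hi0.mem
    · have a1 := ((h.lab j0).2 j e).1 (Or.inl a0)
      by_cases hc : i0 ≤ i
      · exact (a1 ⟨_, _, h'.valid i0, h'.valid i, hi0, hi, node_suffix z' k' hc⟩).elim
      · exact st_mono (node_suffix z' k' (by omega)) hi.mem
  apply (hfin.image (Q z)).subset
  rintro x ⟨⟨j, h1, rfl⟩, h2⟩
  exact ⟨j, ⟨h1, h2⟩, rfl⟩

theorem G.agree_finite {z z' : ℕ → ℕ × ℕ} {k k' : ℕ → ℕ} (h : G z k) (h' : G z' k')
    (hne : ∃ i, node z k i ≠ node z' k' i) :
    {x | (∃ i, x ∈ st (node z k i)) ∧ ∃ i, x ∈ st (node z' k' i)}.Finite := by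
  obtain ⟨i0, hi0⟩ := hne
  have f1 : {x | (∃ i, Catch (node z k i) x) ∧ ∃ i, Catch (node z' k' i) x}.Finite := by
    apply (st (node z k i0)).finite_toSet.subset
    rintro x ⟨⟨i, h1⟩, i', h2⟩
    have e := h1.unique h2
    have e2 : i = i' := by simpa [length_node] using congrArg List.length e
    subst e2
    by_cases hc : i0 ≤ i
    · exfalso
      apply hi0
      have a1 := node_suffix z k hc
      rw [e] at a1
      obtain ⟨i', _, a2⟩ := eq_node_of_suffix a1
      have e3 : i0 = i' := by simpa [length_node] using congrArg List.length a2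
      rw [a2, e3]
    · exact st_mono (node_suffix z k (by omega)) h1.mem
  have f2 := h.caught_finite h'
  have f3 := h'.caught_finite h
  have f4 : {x | (∃ j, x = Q z j) ∧ ∃ j, x = Q z' j}.Finite := by
    have hz : ∃ j0, (z j0).1 ≠ (z' j0).1 := by
      by_contra hc
      push Not at hc
      have e := h.lab.unique h'.lab hc
      subst e
      exact hi0 (h.unique h' i0).2
    obtain ⟨j0, hj0⟩ := hz
    apply ((Set.finite_Iic j0).image (Q z)).subset
    rintro x ⟨⟨j, h1⟩, j', h2⟩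
    have := Q_fst_eq (congrArg Prod.fst (h1.symm.trans h2))
    refine ⟨j, ?_, h1.symm⟩
    by_contra hc
    exact hj0 (this.2 j0 (by simpa using hc))
  apply (((f1.union f2).union f3).union f4).subset
  rintro x ⟨⟨i, h1⟩, i', h2⟩
  rcases h.mem_st h1 with a | a <;> rcases h'.mem_st h2 with b | b
  · exact Or.inl (Or.inl (Or.inl ⟨a, b⟩))
  · exact Or.inl (Or.inr ⟨b, a⟩)
  · exact Or.inl (Or.inl (Or.inr ⟨a, b⟩))
  · obtain ⟨j, _, a⟩ := a
    obtain ⟨j', _, b⟩ := b
    exact Or.inr ⟨⟨j, a⟩, j', b⟩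

end Pool.Agent.H.MP_6a83a4_lc
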