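import Pool.Agent.H.MP_6a83a4_lc.Branch

namespace Pool.Agent.H.MP_6a83a4_lc

open Classical Filter Topology

def dec (c : ℕ) : Mv :=
  ((Encodable.decode (α := Node) (Nat.unpair c).1).getD []).headD []

theorem dec_code (p : Finset (ℕ × ℕ)) (u : Mv) (t : Node) : dec (code p u t) = u := by
  simp [dec, code, Nat.unpair_pair]

noncomputable def D (f : ℕ → ℕ) : ℕ → Node
  | 0 => []
  | i + 1 => dec (f (fa (st (D f i)))) :: D f i

def Sub (t : Node) (f : ℕ → ℕ) : Prop := ∀ x ∈ st t, f x.1 = x.2

def Fam : Set (ℕ → ℕ) := {f | ∀ i, V (D f i) ∧ Sub (D f i) f}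

theorem D_eq {t : Node} {f : ℕ → ℕ} (h : Sub t f) : D f t.length = t := by
  induction t with
  | nil => rfl
  | cons u t ih =>
    have h1 : Sub t f := fun x hx => h x (st_mono (List.suffix_cons _ _) hx)
    have h2 := h (fa (st t), code (st t) u t) (Catch.mem (t := u :: t) (Or.inl rfl))
    simp only at h2
    simp only [List.length_cons, D, ih h1, h2, dec_code]

theorem eventually_apply (f : ℕ → ℕ) (a : ℕ) : ∀ᶠ f' in 𝓝 f, f' a = f a := by
  have : ContinuousAt (fun f' : ℕ → ℕ => f' a) f := (continuous_apply a).continuousAt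
  exact this.eventually (p := fun b => b = f a) (by simp [nhds_discrete])

theorem eventually_D (f : ℕ → ℕ) (i : ℕ) : ∀ᶠ f' in 𝓝 f, D f' i = D f i := by
  induction i with
  | zero => exact Eventually.of_forall fun _ => rfl
  | succ i ih =>
    filter_upwards [ih, eventually_apply f (fa (st (D f i)))] with f' h1 h2
    simp only [D, h1, h2]

theorem isClosed_Fam : IsClosed Fam := by
  rw [← isOpen_compl_iff, isOpen_iff_mem_nhds]
  intro f hf
  simp only [Fam, Set.mem_compl_iff, Set.mem_ofPred_eq, not_forall] at hf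
  obtain ⟨i, hi⟩ := hf
  by_cases hV : V (D f i)
  · have : ∃ x ∈ st (D f i), f x.1 ≠ x.2 := by
      by_contra hc
      push Not at hc
      exact hi ⟨hV, hc⟩
    obtain ⟨x, hx, hx2⟩ := this
    filter_upwards [eventually_D f i, eventually_apply f x.1] with f' h1 h2
    intro hf'
    have := (hf' i).2 x (by rw [h1]; exact hx)
    exact hx2 (h2.symm.trans this)
  · filter_upwards [eventually_D f i] with f' h1
    intro hf'
    exact hV (h1 ▸ (hf' i).1)

theorem length_D (f : ℕ → ℕ) (i : ℕ) : (D f i).length = i := by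
  induction i with
  | zero => rfl
  | succ i ih => simp [D, ih]

theorem D_suffix (f : ℕ → ℕ) {i i' : ℕ} (h : i ≤ i') : D f i <:+ D f i' := by
  induction h with
  | refl => exact List.suffix_refl _
  | step _ ih => exact ih.trans (List.suffix_cons _ _)

theorem bij_of_mem {f : ℕ → ℕ} (hf : f ∈ Fam) : Function.Bijective f := by
  constructor
  · intro a a' h
    obtain ⟨b, hb⟩ := st_dom (D f (max a a' + 1)) a (by rw [length_D]; omega)
    obtain ⟨b', hb'⟩ := st_dom (D f (max a a' + 1)) a' (by rw [length_D]; omega)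
    have e1 := (hf _).2 _ hb
    have e2 := (hf _).2 _ hb'
    simp only at e1 e2
    have := st_inj _ _ hb _ hb' (Or.inr (by simp only; omega))
    exact congrArg Prod.fst this
  · intro b
    obtain ⟨a, ha⟩ := st_ran (D f (b + 1)) b (by rw [length_D]; omega)
    exact ⟨a, (hf _).2 _ ha⟩

theorem graph_mem {f : ℕ → ℕ} (hf : f ∈ Fam) (a : ℕ) : ∃ i, (a, f a) ∈ st (D f i) := by
  obtain ⟨b, hb⟩ := st_dom (D f (a + 1)) a (by rw [length_D]; omega)
  have e1 := (hf _).2 _ hb
  simp only at e1
  exact ⟨a + 1, by rw [e1]; exact hb⟩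

theorem ev_diff {f g : ℕ → ℕ} (hf : f ∈ Fam) (hg : g ∈ Fam) (hne : f ≠ g) :
    {n | f n = g n}.Finite := by
  obtain ⟨z, k, h, e⟩ := exists_G (D f) rfl (fun i => ⟨_, rfl⟩) (fun i => (hf i).1)
  obtain ⟨z', k', h', e'⟩ := exists_G (D g) rfl (fun i => ⟨_, rfl⟩) (fun i => (hg i).1)
  have hne2 : ∃ i, node z k i ≠ node z' k' i := by
    by_contra hc
    push Not at hc
    apply hne
    funext a
    obtain ⟨i, hi⟩ := graph_mem hf a
    rw [e, hc, ← e'] at hi
    exact ((hg i).2 _ hi).symm
  apply ((h.agree_finite h' hne2).image Prod.fst).subset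
  intro n hn
  refine ⟨(n, f n), ⟨?_, ?_⟩, rfl⟩
  · obtain ⟨i, hi⟩ := graph_mem hf n
    exact ⟨i, e i ▸ hi⟩
  · obtain ⟨i, hi⟩ := graph_mem hg n
    refine ⟨i, ?_⟩
    rw [← e', show f n = g n from hn]
    exact hi

theorem exists_limit (s : ℕ → Node) (h1 : ∀ r, s r <:+ s (r + 1)) (h2 : ∀ r, V (s r))
    (h3 : ∀ i, ∃ r, i ≤ (s r).length) : ∃ f ∈ Fam, ∀ r, Sub (s r) f := by
  have hm : ∀ r r', r ≤ r' → s r <:+ s r' := by
    intro r r' h
    induction h with
    | refl => exact List.suffix_refl _
    | step _ ih => exact ih.trans (h1 _)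
  have hd : ∀ a, ∃ b, ∃ r, (a, b) ∈ st (s r) := by
    intro a
    obtain ⟨r, hr⟩ := h3 (a + 1)
    obtain ⟨b, hb⟩ := st_dom (s r) a (by omega)
    exact ⟨b, r, hb⟩
  choose f hf using hd
  have hsub : ∀ r, Sub (s r) f := by
    intro r x hx
    obtain ⟨r', hr'⟩ := hf x.1
    have := st_inj (s (max r r')) _ (st_mono (hm _ _ (le_max_right _ _)) hr') _
      (st_mono (hm _ _ (le_max_left _ _)) hx) (Or.inl rfl)
    exact congrArg Prod.snd this
  refine ⟨f, fun i => ?_, hsub⟩
  obtain ⟨r, hr⟩ := h3 i
  have e : D f i <:+ s r := by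
    rw [← D_eq (hsub r)]
    exact D_suffix f hr
  exact ⟨V_suffix e (h2 r), fun x hx => hsub r x (st_mono e hx)⟩

theorem exists_v (g : ℕ → ℕ) : ∃ v : ℕ → ℕ,
    ∀ j, v j = g (Encodable.encode ((List.range j).map v)) := by
  let L : ℕ → List ℕ := fun n => Nat.rec [] (fun _ l => l ++ [g (Encodable.encode l)]) n
  have key : ∀ j, L j = (List.range j).map (fun j => g (Encodable.encode (L j))) := by
    intro j
    induction j with
    | zero => rfl
    | succ j ih =>
      rw [List.range_succ, List.map_append, ← ih]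
      rfl
  exact ⟨fun j => g (Encodable.encode (L j)), fun j => by rw [← key]⟩

theorem exists_z (g : ℕ → ℕ) : ∃ z : ℕ → ℕ × ℕ, GLab z ∧ ∀ j, g (Q z j).1 = (Q z j).2 := by
  obtain ⟨v, hv⟩ := exists_v g
  let z0 : ℕ → ℕ × ℕ := fun j => (v j, 0)
  let z : ℕ → ℕ × ℕ := fun j => (v j, sInf {j' | j < j' ∧ Le V (Q z0 j) (Q z0 j')})
  have hQ : ∀ j, Q z j = Q z0 j := fun j => Q_congr (fun i _ => rfl)
  refine ⟨z, fun j => ?_, fun j => (hv j).symm⟩
  by_cases hne : {j' | j < j' ∧ Le V (Q z0 j) (Q z0 j')}.Nonempty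
  · have hm := Nat.sInf_mem hne
    refine ⟨Or.inr hm.1, fun j' hj' => ⟨fun h hc => ?_, fun h => ?_⟩⟩
    · rw [hQ, hQ] at hc
      have a1 : (z j).2 ≤ j' := Nat.sInf_le ⟨hj', hc⟩
      have a2 : j < (z j).2 := hm.1
      omega
    · rw [hQ, hQ, h]
      exact hm.2
  · have h0 : (z j).2 = 0 := by
      simp only [z]
      rw [Set.not_nonempty_iff_eq_empty.mp hne, Nat.sInf_empty]
    refine ⟨Or.inl h0, fun j' hj' => ⟨fun _ hc => ?_, fun h => by omega⟩⟩
    rw [hQ, hQ] at hc
    exact hne ⟨j', hj', hc⟩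

theorem exists_k {z : ℕ → ℕ × ℕ} (hz : GLab z) : ∃ k, G z k := by
  let nx : ℕ × Node → ℕ := fun s =>
    if h : ∃ j, s.1 ≤ j ∧ Usable (st s.2) z j then Nat.find h + 1 else s.1 + 1
  let R : ℕ → ℕ × Node := fun n => Nat.rec (0, []) (fun _ s => (nx s, pre z (nx s) :: s.2)) n
  have hR : ∀ i, (R i).2 = node z (fun i => (R i).1) i := by
    intro i
    induction i with
    | zero => rfl
    | succ i ih => simp only [node, ← ih]; rfl
  have hk : ∀ i, (R (i + 1)).1 = nx (R i) := fun i => rfl
  refine ⟨fun i => (R i).1, rfl, strictMono_nat_of_lt_succ fun i => ?_, hz, ?_, ?_⟩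
  · rw [hk]
    simp only [nx]
    split_ifs with h
    · have := (Nat.find_spec h).1
      omega
    · omega
  · intro i j h1 h2 hu
    rw [← hR] at hu
    rw [hk] at h2
    have h : ∃ j, (R i).1 ≤ j ∧ Usable (st (R i).2) z j := ⟨j, h1, hu⟩
    simp only [nx, dif_pos h] at h2
    exact Nat.find_min h (by omega : j < Nat.find h) ⟨h1, hu⟩
  · intro i hu
    rw [← hR] at hu ⊢
    rw [hk] at hu ⊢
    by_cases h : ∃ j, (R i).1 ≤ j ∧ Usable (st (R i).2) z j
    · simp only [nx, dif_pos h, Nat.add_sub_cancel] at hu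
      exact (hu (Nat.find_spec h).2).elim
    · simp only [nx, dif_neg h]
      exact ⟨trivial, fun j h1 h2 => h ⟨j, h1, h2⟩⟩

theorem maximal {g : ℕ → ℕ} (hg : Function.Injective g) :
    ∃ f ∈ Fam, {n | f n = g n}.Infinite := by
  obtain ⟨z, hz, hgz⟩ := exists_z g
  have hQ1 : Function.Injective (fun j => (Q z j).1) := fun a b h => (Q_fst_eq h).1
  have hQ2 : Function.Injective (fun j => (Q z j).2) := fun a b h => by
    apply hQ1
    apply hg
    simp only at h ⊢
    rw [hgz, hgz, h]
  by_cases hM : {j | (z j).2 = 0}.Infinite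
  · obtain ⟨k, h⟩ := exists_k hz
    obtain ⟨f, hf, hsub⟩ := exists_limit (node z k) (fun r => node_suffix z k (by omega))
      h.valid (fun i => ⟨i, by rw [length_node]⟩)
    refine ⟨f, hf, ?_⟩
    have hu : ∀ i, Usable (st (node z k i)) z (k (i + 1) - 1) := by
      intro i
      by_contra hc
      have a1 := (h.K2 i hc).2
      set p := st (node z k i) with hp
      have b1 : {j | (Q z j).1 ∈ insert (fa p) (p.image Prod.fst)}.Finite :=
        Set.Finite.preimage (f := fun j => (Q z j).1) hQ1.injOn (Finset.finite_toSet _)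
      have b2 : {j | (Q z j).2 ∈ insert (fb p) (p.image Prod.snd)}.Finite :=
        Set.Finite.preimage (f := fun j => (Q z j).2) hQ2.injOn (Finset.finite_toSet _)
      apply hM
      apply ((b1.union b2).union (Set.finite_Iio (k i))).subset
      intro j hj
      by_contra hc2
      simp only [Set.mem_union, Set.mem_ofPred_eq, Finset.mem_insert, Finset.mem_image,
        Set.mem_Iio, not_or, not_exists, not_and, not_lt] at hc2
      exact a1 j hc2.2 ⟨hj, fun b hb => hc2.1.1.2 _ hb rfl, fun a ha => hc2.1.2.2 _ ha rfl,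
        hc2.1.1.1, hc2.1.2.1⟩
    apply Set.infinite_of_injective_forall_mem (f := fun i => (Q z (k (i + 1) - 1)).1)
    · intro a b hab
      have e := hQ1 hab
      have m1 : k 0 < k (a + 1) := h.mono (by omega)
      have m2 : k 0 < k (b + 1) := h.mono (by omega)
      have := h.mono.injective (show k (a + 1) = k (b + 1) by omega)
      omega
    · intro i
      have := hsub (i + 1) _ (h.use_mem (hu i))
      simp only [Set.mem_ofPred_eq]
      rw [this, hgz]
  · have hfin := Set.not_infinite.mp hM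
    obtain ⟨N, hN⟩ := hfin.bddAbove
    have hN1 : ∀ j, N < j → j < (z j).2 ∧ Le V (Q z j) (Q z (z j).2) := by
      intro j hj
      have a1 : (z j).2 ≠ 0 := fun h0 => by
        have := hN h0
        omega
      have a2 := (hz j).1.resolve_left a1
      exact ⟨a2, ((hz j).2 _ a2).2 rfl⟩
    let J : ℕ → ℕ := fun r => Nat.rec (N + 1) (fun _ j => (z j).2) r
    have hJ : ∀ r, J (r + 1) = (z (J r)).2 := fun r => rfl
    have hJN : ∀ r, N < J r := by
      intro r
      induction r with
      | zero => exact Nat.lt_succ_self N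
      | succ r ih => rw [hJ]; exact ih.trans (hN1 _ ih).1
    have hJm : StrictMono J := strictMono_nat_of_lt_succ fun r => (hN1 _ (hJN r)).1
    have hL : ∀ r, Le V (Q z (J r)) (Q z (J (r + 1))) := fun r => (hN1 _ (hJN r)).2
    choose s s' v1 v2 c1 c2 hss using hL
    have hs' : ∀ r, s' r = s (r + 1) := fun r => (c2 r).unique (c1 (r + 1))
    have hstep : ∀ r, s r <:+ s (r + 1) := fun r => hs' r ▸ hss r
    have hun : ∀ i, ∃ r, i ≤ (s r).length := by
      intro i
      induction i with
      | zero => exact ⟨0, Nat.zero_le _⟩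
      | succ i ih =>
        obtain ⟨r, hr⟩ := ih
        by_contra hc
        push Not at hc
        have e : ∀ d, s (r + d) = s r ∧ i ≤ (s (r + d)).length := by
          intro d
          induction d with
          | zero => exact ⟨rfl, hr⟩
          | succ d ih =>
            have b1 := hstep (r + d)
            have b2 := hc (r + d + 1)
            have b3 := b1.length_le
            have b4 := b1.eq_of_length (by omega)
            exact ⟨by rw [← ih.1, b4]; rfl, by rw [← add_assoc]; omega⟩
        apply Set.infinite_of_injective_forall_mem (f := fun d => Q z (J (r + d)))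
          (s := {q | Catch (s r) q}) _ _ (catch_finite _)
        · intro a b hab
          have := hJm.injective (hQ1 (congrArg Prod.fst hab))
          omega
        · intro d
          have := c1 (r + d)
          rwa [(e d).1] at this
    obtain ⟨f, hf, hsub⟩ := exists_limit s hstep v1 hun
    refine ⟨f, hf, ?_⟩
    apply Set.infinite_of_injective_forall_mem (f := fun r => (Q z (J r)).1)
    · intro a b hab
      exact hJm.injective (hQ1 hab)
    · intro r
      have := hsub r _ (c1 r).mem
      simp only [Set.mem_ofPred_eq]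
      rw [this, hgz]

end Pool.Agent.H.MP_6a83a4_lc
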