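import Mathlib

namespace Pool.Agent.H.MP_6a83a4_lc

open Classical

abbrev Mv := List (ℕ × ℕ)
abbrev Node := List Mv

def ex (u : Mv) (j : ℕ) : ℕ × ℕ := u.getD j (0, 0)

def Q (z : ℕ → ℕ × ℕ) (j : ℕ) : ℕ × ℕ :=
  (Encodable.encode ((List.range j).map (fun i => (z i).1)), (z j).1)

theorem Q_congr {z z' : ℕ → ℕ × ℕ} {j : ℕ} (h : ∀ i ≤ j, (z i).1 = (z' i).1) :
    Q z j = Q z' j := by
  unfold Q
  rw [h j le_rfl]
  congr 2
  apply List.map_congr_left
  intro i hi
  exact h i (List.mem_range.mp hi).le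

theorem Q_fst_eq {z z' : ℕ → ℕ × ℕ} {j j' : ℕ} (h : (Q z j).1 = (Q z' j').1) :
    j = j' ∧ ∀ i < j, (z i).1 = (z' i).1 := by
  unfold Q at h
  have h1 := Encodable.encode_injective h
  have h2 : j = j' := by simpa using congrArg List.length h1
  subst h2
  refine ⟨rfl, fun i hi => ?_⟩
  exact (List.map_inj_left.mp h1) i (List.mem_range.mpr hi)

noncomputable def fa (p : Finset (ℕ × ℕ)) : ℕ := sInf {a | ∀ b, (a, b) ∉ p}
noncomputable def fb (p : Finset (ℕ × ℕ)) : ℕ := sInf {b | ∀ a, (a, b) ∉ p}

theorem le_sup_of_mem {p : Finset (ℕ × ℕ)} {x : ℕ × ℕ} (h : x ∈ p) :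
    x.1 + x.2 ≤ p.sup (fun x => x.1 + x.2) :=
  Finset.le_sup (f := fun x : ℕ × ℕ => x.1 + x.2) h

theorem fa_not_mem (p : Finset (ℕ × ℕ)) (b : ℕ) : (fa p, b) ∉ p := by
  have : fa p ∈ {a | ∀ b, (a, b) ∉ p} := by
    apply Nat.sInf_mem
    refine ⟨p.sup (fun x => x.1 + x.2) + 1, fun b hb => ?_⟩
    have := le_sup_of_mem hb
    simp only at this
    omega
  exact this b

theorem fb_not_mem (p : Finset (ℕ × ℕ)) (a : ℕ) : (a, fb p) ∉ p := by
  have : fb p ∈ {b | ∀ a, (a, b) ∉ p} := by
    apply Nat.sInf_mem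
    refine ⟨p.sup (fun x => x.1 + x.2) + 1, fun b hb => ?_⟩
    have := le_sup_of_mem hb
    simp only at this
    omega
  exact this a

theorem mem_of_lt_fa {p : Finset (ℕ × ℕ)} {a : ℕ} (h : a < fa p) : ∃ b, (a, b) ∈ p := by
  have := Nat.notMem_of_lt_sInf h
  simpa using this

theorem mem_of_lt_fb {p : Finset (ℕ × ℕ)} {b : ℕ} (h : b < fb p) : ∃ a, (a, b) ∈ p := by
  have := Nat.notMem_of_lt_sInf h
  simpa using this

def Usable (p : Finset (ℕ × ℕ)) (z : ℕ → ℕ × ℕ) (j : ℕ) : Prop :=
  (z j).2 = 0 ∧ (∀ b, ((Q z j).1, b) ∉ p) ∧ (∀ a, (a, (Q z j).2) ∉ p) ∧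
    (Q z j).1 ≠ fa p ∧ (Q z j).2 ≠ fb p

theorem Usable_congr {p : Finset (ℕ × ℕ)} {z z' : ℕ → ℕ × ℕ} {j : ℕ}
    (h : ∀ i ≤ j, z i = z' i) : Usable p z j ↔ Usable p z' j := by
  unfold Usable
  rw [Q_congr (z := z) (z' := z') (fun i hi => by rw [h i hi]), h j le_rfl]

noncomputable def bnd (p : Finset (ℕ × ℕ)) (u : Mv) : ℕ :=
  p.sup (fun x => x.1 + x.2) + fa p + fb p +
    (Finset.range (u.length + 1)).sup (fun j => (Q (ex u) j).1 + (Q (ex u) j).2) + 1

noncomputable def code (p : Finset (ℕ × ℕ)) (u : Mv) (t : Node) : ℕ :=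
  Nat.pair (Encodable.encode (u :: t)) (bnd p u)

theorem bnd_le_code (p : Finset (ℕ × ℕ)) (u : Mv) (t : Node) : bnd p u ≤ code p u t :=
  Nat.right_le_pair _ _

theorem lt_code_of_mem {p : Finset (ℕ × ℕ)} (u : Mv) (t : Node) {x : ℕ × ℕ} (h : x ∈ p) :
    x.1 + x.2 < code p u t := by
  have h1 := le_sup_of_mem h
  have h2 := bnd_le_code p u t
  unfold bnd at h2
  omega

theorem fa_lt_code (p : Finset (ℕ × ℕ)) (u : Mv) (t : Node) : fa p < code p u t := by
  have h2 := bnd_le_code p u t
  unfold bnd at h2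
  omega

theorem fb_lt_code (p : Finset (ℕ × ℕ)) (u : Mv) (t : Node) : fb p < code p u t := by
  have h2 := bnd_le_code p u t
  unfold bnd at h2
  omega

theorem Q_lt_code (p : Finset (ℕ × ℕ)) (u : Mv) (t : Node) {j : ℕ} (hj : j ≤ u.length) :
    (Q (ex u) j).1 + (Q (ex u) j).2 < code p u t := by
  have h2 := bnd_le_code p u t
  have h1 : (Q (ex u) j).1 + (Q (ex u) j).2 ≤
      (Finset.range (u.length + 1)).sup (fun j => (Q (ex u) j).1 + (Q (ex u) j).2) :=
    Finset.le_sup (f := fun j => (Q (ex u) j).1 + (Q (ex u) j).2)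
      (Finset.mem_range.mpr (by omega))
  unfold bnd at h2
  omega

noncomputable def st : Node → Finset (ℕ × ℕ)
  | [] => ∅
  | u :: t => insert (fa (st t), code (st t) u t) (insert (code (st t) u t, fb (st t))
      (if Usable (st t) (ex u) (u.length - 1) then insert (Q (ex u) (u.length - 1)) (st t)
        else st t))

noncomputable def rk : Node → ℕ
  | [] => 0
  | u :: t => code (st t) u t

def Catch : Node → ℕ × ℕ → Prop
  | [], _ => False
  | u :: t, q => q = (fa (st t), code (st t) u t) ∨ q = (code (st t) u t, fb (st t))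

theorem mem_st_cons {u : Mv} {t : Node} {x : ℕ × ℕ} :
    x ∈ st (u :: t) ↔ Catch (u :: t) x ∨
      (Usable (st t) (ex u) (u.length - 1) ∧ x = Q (ex u) (u.length - 1)) ∨ x ∈ st t := by
  simp only [st, Catch, Finset.mem_insert]
  split_ifs with h
  · simp only [Finset.mem_insert, h, true_and]
    tauto
  · simp only [h, false_and, false_or]
    tauto

theorem Catch.mem {t : Node} {q : ℕ × ℕ} (h : Catch t q) : q ∈ st t := by
  cases t with
  | nil => exact h.elim
  | cons u t => exact mem_st_cons.mpr (Or.inl h)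

theorem Catch.rk_eq {t : Node} {q : ℕ × ℕ} (h : Catch t q) : rk t = max q.1 q.2 := by
  cases t with
  | nil => exact h.elim
  | cons u t =>
    have h1 := fa_lt_code (st t) u t
    have h2 := fb_lt_code (st t) u t
    rcases h with h | h <;> rw [h] <;> simp only [rk] <;> omega

theorem Catch.unique {t t' : Node} {q : ℕ × ℕ} (h : Catch t q) (h' : Catch t' q) : t = t' := by
  have e := h.rk_eq.trans h'.rk_eq.symm
  cases t with
  | nil => exact h.elim
  | cons u t =>
    cases t' with
    | nil => exact h'.elim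
    | cons u' t' =>
      simp only [rk, code] at e
      exact Encodable.encode_injective (Nat.pair_eq_pair.mp e).1

theorem st_mono {s t : Node} (h : s <:+ t) : st s ⊆ st t := by
  induction t with
  | nil => rw [List.suffix_nil.mp h]
  | cons u t ih =>
    rcases List.suffix_cons_iff.mp h with h | h
    · rw [h]
    · intro x hx
      exact mem_st_cons.mpr (Or.inr (Or.inr (ih h hx)))

theorem rk_lt (u : Mv) (t : Node) : rk t < rk (u :: t) := by
  cases t with
  | nil =>
    have := fa_lt_code (st []) u []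
    simp only [rk]
    omega
  | cons u' t =>
    have h : Catch (u' :: t) (fa (st t), code (st t) u' t) := Or.inl rfl
    have := lt_code_of_mem u (u' :: t) h.mem
    simp only [rk] at this ⊢
    omega

theorem st_inj (t : Node) : ∀ x ∈ st t, ∀ y ∈ st t, (x.1 = y.1 ∨ x.2 = y.2) → x = y := by
  induction t with
  | nil => intro x hx; simp [st] at hx
  | cons u t ih =>
    have h1 := fa_lt_code (st t) u t
    have h2 := fb_lt_code (st t) u t
    have h3 := Q_lt_code (st t) u t (j := u.length - 1) (by omega)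
    have key : ∀ x ∈ st t, ∀ y, (Catch (u :: t) y ∨
        (Usable (st t) (ex u) (u.length - 1) ∧ y = Q (ex u) (u.length - 1))) →
        ¬ (x.1 = y.1 ∨ x.2 = y.2) := by
      rintro ⟨a, b⟩ hx y hy hh
      have h4 := lt_code_of_mem u t hx
      rcases hy with (hy | hy) | ⟨hu, hy⟩
      · subst hy
        simp only at hh h4
        rcases hh with hh | hh
        · subst hh; exact fa_not_mem _ _ hx
        · omega
      · subst hy
        simp only at hh h4
        rcases hh with hh | hh
        · omega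
        · subst hh; exact fb_not_mem _ _ hx
      · subst hy
        simp only at hh
        rcases hh with hh | hh
        · subst hh; exact hu.2.1 _ hx
        · subst hh; exact hu.2.2.1 _ hx
    have key2 : ∀ x y, Catch (u :: t) x → Usable (st t) (ex u) (u.length - 1) →
        y = Q (ex u) (u.length - 1) → ¬ (x.1 = y.1 ∨ x.2 = y.2) := by
      intro x y hx hu hy hh
      have h5 := hu.2.2.2.1
      have h6 := hu.2.2.2.2
      subst hy
      rcases hx with hx | hx <;> subst hx <;> simp only at hh <;> omega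
    intro x hx y hy hxy
    rcases mem_st_cons.mp hx with hx | hx | hx
    · rcases mem_st_cons.mp hy with hy | hy | hy
      · rcases hx with hx | hx <;> rcases hy with hy | hy <;> subst hx <;> subst hy
        · rfl
        · simp only at hxy; omega
        · simp only at hxy; omega
        · rfl
      · exact (key2 x y hx hy.1 hy.2 hxy).elim
      · exact (key y hy x (Or.inl hx) (by tauto)).elim
    · rcases mem_st_cons.mp hy with hy | hy | hy
      · exact (key2 y x hy hx.1 hx.2 (by tauto)).elim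
      · rw [hx.2, hy.2]
      · exact (key y hy x (Or.inr hx) (by tauto)).elim
    · rcases mem_st_cons.mp hy with hy | hy | hy
      · exact (key x hx y (Or.inl hy) hxy).elim
      · exact (key x hx y (Or.inr hy) hxy).elim
      · exact ih x hx y hy hxy

theorem st_dom (t : Node) : ∀ a < t.length, ∃ b, (a, b) ∈ st t := by
  induction t with
  | nil => intro a ha; simp at ha
  | cons u t ih =>
    intro a ha
    by_cases h : ∃ b, (a, b) ∈ st t
    · obtain ⟨b, hb⟩ := h
      exact ⟨b, mem_st_cons.mpr (Or.inr (Or.inr hb))⟩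
    · have h1 : a = fa (st t) := by
        apply le_antisymm
        · by_contra hc
          push Not at hc
          have : fa (st t) < t.length := by simp at ha; omega
          obtain ⟨b, hb⟩ := ih _ this
          exact fa_not_mem _ _ hb
        · by_contra hc
          push Not at hc
          exact h (mem_of_lt_fa hc)
      exact ⟨_, mem_st_cons.mpr (Or.inl (Or.inl (by rw [h1])))⟩

theorem st_ran (t : Node) : ∀ b < t.length, ∃ a, (a, b) ∈ st t := by
  induction t with
  | nil => intro a ha; simp at ha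
  | cons u t ih =>
    intro b hb
    by_cases h : ∃ a, (a, b) ∈ st t
    · obtain ⟨a, ha⟩ := h
      exact ⟨a, mem_st_cons.mpr (Or.inr (Or.inr ha))⟩
    · have h1 : b = fb (st t) := by
        apply le_antisymm
        · by_contra hc
          push Not at hc
          have : fb (st t) < t.length := by simp at hb; omega
          obtain ⟨a, ha⟩ := ih _ this
          exact fb_not_mem _ _ ha
        · by_contra hc
          push Not at hc
          exact h (mem_of_lt_fb hc)
      exact ⟨_, mem_st_cons.mpr (Or.inl (Or.inr (by rw [h1])))⟩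

def Le (W : Node → Prop) (q q' : ℕ × ℕ) : Prop :=
  ∃ s s' : Node, W s ∧ W s' ∧ Catch s q ∧ Catch s' q' ∧ s <:+ s'

def Lab (W : Node → Prop) (z : ℕ → ℕ × ℕ) (n : ℕ) : Prop :=
  ∀ j < n, ((z j).2 = 0 ∨ j < (z j).2) ∧ ∀ j', j < j' → j' < n →
    ((((z j).2 = 0 ∨ j' < (z j).2) → ¬ Le W (Q z j) (Q z j')) ∧
      (j' = (z j).2 → Le W (Q z j) (Q z j')))

def hl (t : Node) : ℕ := (t.headD []).length

def Phi (W : Node → Prop) : Node → Prop
  | [] => True
  | u :: t => W t ∧ hl t < u.length ∧ (∀ i < hl t, ex u i = ex (t.headD []) i) ∧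
      Lab W (ex u) u.length ∧
      (∀ j, hl t ≤ j → j + 1 < u.length → ¬ Usable (st t) (ex u) j) ∧
      (∀ u' t', u' :: t' <:+ u :: t → ¬ Usable (st t') (ex u') (u'.length - 1) →
        u'.length = hl t' + 1 ∧ ∀ j, hl t' ≤ j → j < u.length → ¬ Usable (st t') (ex u) j)

noncomputable def V : Node → Prop :=
  (measure rk).wf.fix (fun t IH => Phi (fun s => ∃ h : rk s < rk t, IH s h) t)

theorem V_eq (t : Node) : V t = Phi (fun s => ∃ _ : rk s < rk t, V s) t := by
  unfold V
  rw [WellFounded.fix_eq]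

theorem V_iff (t : Node) : V t ↔ Phi V t := by
  rw [V_eq]
  cases t with
  | nil => rfl
  | cons u t =>
    have hL : ∀ j j', j ≤ u.length → j' ≤ u.length →
        (Le (fun s => ∃ _ : rk s < rk (u :: t), V s) (Q (ex u) j) (Q (ex u) j') ↔
          Le V (Q (ex u) j) (Q (ex u) j')) := by
      intro j j' hj hj'
      constructor
      · rintro ⟨s, s', ⟨_, h1⟩, ⟨_, h2⟩, h3⟩
        exact ⟨s, s', h1, h2, h3⟩
      · rintro ⟨s, s', h1, h2, h3, h4, h5⟩
        have a1 := Q_lt_code (st t) u t hj
        have a2 := Q_lt_code (st t) u t hj'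
        refine ⟨s, s', ⟨?_, h1⟩, ⟨?_, h2⟩, h3, h4, h5⟩
        · rw [h3.rk_eq]; simp only [rk]; omega
        · rw [h4.rk_eq]; simp only [rk]; omega
    have hLab : Lab (fun s => ∃ _ : rk s < rk (u :: t), V s) (ex u) u.length ↔
        Lab V (ex u) u.length := by
      unfold Lab
      refine forall_congr' fun j => forall_congr' fun hj => and_congr Iff.rfl ?_
      refine forall_congr' fun j' => forall_congr' fun _ => forall_congr' fun hj' => ?_
      rw [hL j j' hj.le hj'.le]
    simp only [Phi]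
    rw [hLab]
    have : (∃ _ : rk t < rk (u :: t), V t) ↔ V t := ⟨fun h => h.2, fun h => ⟨rk_lt u t, h⟩⟩
    rw [this]

theorem V_suffix {s t : Node} (h : s <:+ t) (ht : V t) : V s := by
  induction t with
  | nil => rw [List.suffix_nil.mp h]; exact ht
  | cons u t ih =>
    rcases List.suffix_cons_iff.mp h with h | h
    · rw [h]; exact ht
    · exact ih h ((V_iff _).mp ht).1

end Pool.Agent.H.MP_6a83a4_lc
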